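import Pool.Agent.TH771.EA.Fin
import Pool.Agent.TH771.CX.ExpClose
import Pool.Agent.TH771.CX.NESpace2
import Pool.Agent.H622R2.Exp.FinalE
import Pool.Agent.H529R3.Gap.Main

/-!
# How many strings of a random oracle must be changed to make `E` and `ESPACE` equal?

Let `g` be a function. If for every `ε > 0` there are infinitely many `n` with `g n ≤ n ^ ε`, then
for almost every oracle `O`, relative to every oracle `A` which is obtained from `O` by at most `g`
changes, there is a language in `ESPACE` which is not in `E`, and which is hard on average: no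
algorithm of `E` with `o(2 ^ n)` bits of advice is right for more than `(1 / 2 + ε) 2 ^ n` of the
inputs of length `n`, for all large `n`. Otherwise every oracle `O` whatsoever can be changed at
`g` strings so that `E = ESPACE`. If moreover `g n ≤ 2 ^ (n ^ ε)` infinitely often for every
`ε > 0`, then for almost every `O`, whatever the changes are, `PSPACE` is not in `PH` with
polynomial advice. So most oracles near a random oracle with `E = ESPACE` have `P ≠ PSPACE`.
-/

set_option autoImplicit false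

namespace Pool.Agent.Results.MP_d67941_lc.ChangedStrings

open Filter MeasureTheory Pool.Agent.NPC
open Pool.Agent.H628R3.RO (randomOracle)
open Pool.Agent.H620R2.Gauge Pool.Agent.H622R2.Exp Pool.Agent.W900.CH Pool.Agent.TH771.CX
open Pool.Agent.TH771.EA

theorem result (g : ℕ → ℝ) :
    ((∀ ε : ℝ, 0 < ε → ∃ᶠ n : ℕ in atTop, g n ≤ (n : ℝ) ^ ε) →
      ∀ᵐ O ∂randomOracle, ∀ A, Close g O A → ∃ L, InSpace Lin A L ∧ ¬ InTime Lin A L ∧
        ∀ M : Alg, ∀ q ∈ Lin, ∀ h : ℕ → List Bool,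
          (∀ ε : ℝ, 0 < ε → ∀ᶠ n : ℕ in atTop, ((h n).length : ℝ) ≤ ε * 2 ^ n) →
          ∀ ε : ℝ, 0 < ε → ∃ᶠ n : ℕ in atTop,
            (right M A (h n) (2 ^ q.eval n) n L : ℝ) ≤ (1 / 2 + ε) * 2 ^ n) ∧
    ((¬ ∀ ε : ℝ, 0 < ε → ∃ᶠ n : ℕ in atTop, g n ≤ (n : ℝ) ^ ε) →
      (∀ O : Oracle, ∃ A, Close g O A ∧ ∀ L, InSpace Lin A L → InTime Lin A L) ∧
      ((∀ ε : ℝ, 0 < ε → ∃ᶠ n : ℕ in atTop, g n ≤ 2 ^ (n : ℝ) ^ ε) →
        ∀ᵐ O ∂randomOracle,
          (∃ A, Close g O A ∧ ∀ L, InSpace Lin A L → InTime Lin A L) ∧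
          ∀ A, Close g O A → ∃ L, IsPSPACE A L ∧ ¬ IsPHpoly A L)) := by
  have h : (¬ ∀ ε : ℝ, 0 < ε → ∃ᶠ n : ℕ in atTop, g n ≤ (n : ℝ) ^ ε) →
      ∀ O : Oracle, ∃ A, Close g O A ∧ ∀ L, InSpace Lin A L → InTime Lin A L := by
    intro hg O
    push Not at hg
    obtain ⟨ε, hε, h⟩ := hg
    exact exists_close_E hε h O
  refine ⟨fun hg => ?_, fun hg => ⟨h hg, fun hg2 => ?_⟩⟩
  · filter_upwards [ae_avg hg, ae_far_NES hg] with O hO hO2 A hA
    exact ⟨par2 A, par2_space good_Lin A, fun h => hO2 A hA h.isNTime, hO A hA⟩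
  · have h1 := ae_far_P (S := {A : Oracle | ∀ L, IsPSPACE A L → IsPHpoly A L})
      (fun f hf => null_of_frequently f hf _ fun A hA => hA _ (parLang_pspace A)) hg2
    filter_upwards [h1] with O hO
    refine ⟨h hg O, fun A hA => ?_⟩
    by_contra h3
    push Not at h3
    exact hO A hA h3

end Pool.Agent.Results.MP_d67941_lc.ChangedStrings
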