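import Pool.Agent.TH678.EX.Gap

/-!
# `E = ESPACE` relative to an oracle, with and without `PH = PSPACE`

If `P = PSPACE`, then, by padding, `E = ESPACE`, and this holds relative to every oracle. For every
gauge `f`, the set of the oracles relative to which `E = ESPACE`, and the set of the oracles
relative to which `E = ESPACE` but `PH ≠ PSPACE`, are null sets for `f` if and only if for every
`ε > 0` there are infinitely many `N` with `f N ≤ (log N) ^ ε`. The same holds for every set of
oracles that contains all the oracles with `E = ESPACE` and `PSPACE ⊄ PH/poly`, and all of whose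
members satisfy `ESPACE ⊆ EH` (the linear exponential hierarchy).

`InTime Lin A` is the class `E` relative to `A`, `InSpace Lin A` is `ESPACE`, `InAlt Lin A` is the
linear exponential hierarchy.
-/

set_option autoImplicit false

namespace Pool.Agent.Results.MP_d67941_lc.GaugeThreshold

open Pool.Agent.NPC Pool.Agent.H620R2.Gauge Pool.Agent.H622R2.Exp

theorem result (f : ℕ → ℝ) :
    (∀ O : Set Oracle,
      (∀ A : Oracle, (∀ L, InSpace Lin A L → InTime Lin A L) →
        (∃ L, IsPSPACE A L ∧ ¬ IsPHpoly A L) → A ∈ O) →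
      (∀ A ∈ O, ∀ L, InSpace Lin A L → InAlt Lin A L) →
      (Null f O ↔ ∀ ε : ℝ, 0 < ε → ∃ᶠ N : ℕ in Filter.atTop, f N ≤ (Real.logb 2 N) ^ ε)) ∧
    (Null f {A : Oracle | ∀ L, InTime Lin A L ↔ InSpace Lin A L} ↔
      ∀ ε : ℝ, 0 < ε → ∃ᶠ N : ℕ in Filter.atTop, f N ≤ (Real.logb 2 N) ^ ε) ∧
    (Null f {A : Oracle | (∀ L, InTime Lin A L ↔ InSpace Lin A L) ∧
        ¬ ∀ L, IsPH A L ↔ IsPSPACE A L} ↔
      ∀ ε : ℝ, 0 < ε → ∃ᶠ N : ℕ in Filter.atTop, f N ≤ (Real.logb 2 N) ^ ε) :=
  Pool.Agent.TH678.EX.mainS f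

end Pool.Agent.Results.MP_d67941_lc.GaugeThreshold
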