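import Pool.Agent.TH733.RT.UseE
import Pool.Agent.TH678.EX.Gap
import Pool.Agent.H529R3.Gap.Main

/-!
# Common translates of independent random oracles: `E` and `ESPACE`

`xor2 A B` is the symmetric difference of the oracles `A` and `B`, the translate of `A` by `B`.

* For every sequence `B 0, B 1, ...` of oracles there is one oracle `A` such that `E = ESPACE`
  relative to every translate of `A` by a `B i`.
* Let the `B i` be independent random oracles. Almost surely, for every set `I` of numbers there is
  one oracle `A` such that, relative to the translate by `B i`, for all `i` in `I`, `E = ESPACE`,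
  while for all `i` outside `I`, `ESPACE` is not in the linear exponential hierarchy, and `PSPACE`
  is not in the polynomial hierarchy with polynomial advice.

So the set of the `i` with `E = ESPACE` relative to the translate by `B i` can be prescribed.

Proof. `A` codes the computations relative to its translates by the `B i`, `i ∈ I`, masked by
`B i`; on the strings of length at most `n` it depends on `I` only below `log n`; for a fixed `I` the
translate by an independent random oracle is random; and the oracles with `ESPACE` in the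
exponential hierarchy, or `PSPACE` in `PH/poly`, form a null set for slowly growing gauges (starting
files `H249R3`, `H529R3`).
-/

set_option autoImplicit false

namespace Pool.Agent.Results.MP_d67941_lc.IndependentTranslates

open Pool.Agent.NPC Pool.Agent.H620R2.Gauge Pool.Agent.H622R2.Exp
open Pool.Agent.TH733.RT MeasureTheory

theorem nullS : Null slowG {A : Oracle | (∀ L, InSpace Lin A L → InAlt Lin A L) ∨
    ∀ L, IsPSPACE A L → IsPHpoly A L} := by
  have h1 : Null slowG {A : Oracle | ∀ L, InSpace Lin A L → InAlt Lin A L} :=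
    ((Pool.Agent.TH678.EX.mainS slowG).1 {A : Oracle | ∀ L, InSpace Lin A L → InAlt Lin A L}
      (fun _ hA _ L hL => (hA L hL).isNTime.isAlt) (fun _ hA => hA)).2
      (fun _ hε => (slow_e hε).frequently)
  have h2 : Null slowG {A : Oracle | ∀ L, IsPSPACE A L → IsPHpoly A L} :=
    null_of_frequently slowG (fun _ hε => (slow_p hε).frequently) _
      fun A hA => hA _ (parLang_pspace A)
  exact (null_union h1 h2).mono fun A hA => hA

theorem result :
    (∀ B : ℕ → Oracle, ∃ A : Oracle, ∀ i L,
      InTime Lin (xor2 A (B i)) L ↔ InSpace Lin (xor2 A (B i)) L) ∧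
    ∀ᵐ B ∂randomSeq, ∀ I : Set ℕ, ∃ A : Oracle,
      (∀ i ∈ I, ∀ L, InTime Lin (xor2 A (B i)) L ↔ InSpace Lin (xor2 A (B i)) L) ∧
      ∀ i ∉ I, (∃ L, InSpace Lin (xor2 A (B i)) L ∧ ¬ InAlt Lin (xor2 A (B i)) L) ∧
        ∃ L, IsPSPACE (xor2 A (B i)) L ∧ ¬ IsPHpoly (xor2 A (B i)) L := by
  obtain ⟨h1, h2⟩ := use_e good_Lin nullS
  refine ⟨fun B => ?_, ?_⟩
  · obtain ⟨A, hA⟩ := h1 B
    exact ⟨A, fun i L => ⟨fun h => h.isNTime.isSpace good_Lin, hA i L⟩⟩
  · filter_upwards [h2] with B hB I
    obtain ⟨A, h3, h4⟩ := hB I
    refine ⟨A, fun i hi L => ⟨fun h => h.isNTime.isSpace good_Lin, h3 i hi L⟩, fun i hi => ?_⟩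
    have h : ¬ ((∀ L, InSpace Lin (xor2 A (B i)) L → InAlt Lin (xor2 A (B i)) L) ∨
        ∀ L, IsPSPACE (xor2 A (B i)) L → IsPHpoly (xor2 A (B i)) L) := h4 i hi
    push Not at h
    exact h

end Pool.Agent.Results.MP_d67941_lc.IndependentTranslates
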