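import Pool.Agent.TH93.MM.Law

/-!
# `E` versus `ESPACE` relative to a random oracle: how many bits of memory can be simulated

`InMem (fun n => 2 ^ n) g A L` says that `L` is decided, relative to the oracle `A`, with `g (n)` bits
of memory: the algorithm works in steps, every step is computed in time `2 ^ O(n)` relative to `A`,
and between the steps it keeps `g (n)` bits only; the number of steps is not bounded. (For
`g (n) = O(n)` this is the class `E`, and for `g (n) = 2 ^ O(n)` it is `ESPACE`, relative to `A`.)
`InTimeO h A L` says that `L` is decided in deterministic time `2 ^ O(h(n) + n)`. `InAltO h A L` says
that `L` is decided in alternating time `2 ^ O(h(n) + n)` with a constant number of alternations and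
with `2 ^ n / 2` bits of advice. `NiceT (fun n => 2 ^ n) g` says that `g (n)` is computed (in unary)
in time `2 ^ O(n)`.

Theorem. Relative to almost every oracle `A`, for all `g` with this property and for all functions
`h`, the following are equivalent:

1. all languages with `g (n)` bits of memory are in deterministic time `2 ^ O(h(n) + n)`;
2. all these languages are in alternating time `2 ^ O(h(n) + n)` with a constant number of
   alternations and with `2 ^ n / 2` bits of advice;
3. `g (n) = O(h(n) + n)`.

For `h = 0`: relative to almost every oracle the class `E`, and even the linear exponential
hierarchy with `2 ^ n / 2` bits of advice, contains the languages with `g (n)` bits of memory if and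
only if `g (n) = O(n)`.

Proof. The test language: `x` is accepted if the number of the strings `x w` in the oracle, with
`|w| = g (|x|) - 2`, is odd. A counter and a parity bit suffice. An alternating algorithm of the kind
considered, with any advice, is right on all `2 ^ n` inputs with a very small probability only if
`2 ^ g(n)` is larger than a power of its time bound: by Håstad's switching lemma it becomes a shallow
decision tree on all inputs, while every block `x w` keeps many random bits (the finite form of
this is in the starting library `H620R2/Gauge`).
-/

set_option autoImplicit false

namespace Pool.Agent.Results.MP_d67941_lc.MemoryLaw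

open Pool.Agent.TH93.MM Pool.Agent.TH93.GL Pool.Agent.H620R2.Gauge MeasureTheory

/-- **Bits of memory against time and alternating time, relative to a random oracle.** -/
theorem result : ∀ᵐ A ∂ranO, ∀ g h : ℕ → ℕ, NiceT (fun n => 2 ^ n) g → List.TFAE [
      ∀ L, InMem (fun n => 2 ^ n) g A L → InTimeO h A L,
      ∀ L, InMem (fun n => 2 ^ n) g A L → InAltO h A L,
      ∃ c, ∀ n, g n ≤ c * (h n + n + 1)] :=
  law_alt

end Pool.Agent.Results.MP_d67941_lc.MemoryLaw
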